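import Pool.Agent.Helper87.MD.Goals

/-!
# Packet REG of project MD: regrouping by the gcd
-/

set_option autoImplicit false

open Finset
open scoped Classical

namespace Pool.Agent.Helper13.MD

open Pool.Agent.Helper98.Lang Pool.Agent.Helper87.MD

theorem et_le_eb {c ε : ℝ} {d q R : ℕ} (hc : 0 < c) (hε : 0 < ε) (hR : 2 ≤ R) (hq : R ≤ q) :
    et c ε d q ≤ eb c ε d (Nat.gcd d q) R := by
  have hR2 : (2 : ℝ) ≤ R := by exact_mod_cast hR
  have hRq : (R : ℝ) ≤ q := by exact_mod_cast hq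
  have hlog : 0 < Real.log R := Real.log_pos (by linarith)
  have hL : LL ε R ≤ LL ε q := by
    unfold LL
    exact Real.rpow_le_rpow hlog.le (Real.log_le_log (by linarith) hRq) (by linarith)
  have hL0 : 0 < LL ε R := by
    unfold LL
    exact Real.rpow_pos_of_pos hlog _
  unfold et eb
  refine div_le_div_of_nonneg_left (by positivity) (by positivity) ?_
  exact mul_le_mul hRq hL hL0.le (by linarith)

theorem fib (ξ c ε : ℝ) (s M d R g : ℕ) (hc : 0 < c) (hε : 0 < ε) (hd : 1 ≤ d) (hR : 2 ≤ R) :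
    ∑ q ∈ (Ico R (2 * R)).filter (fun q => Nat.gcd d q = g), WW ξ c ε s M d q ≤
      SS ξ c ε s M d g R := by
  unfold WW SS
  rw [← card_sigma]
  refine card_le_card_of_injOn (fun x : (Σ _ : ℕ, ℕ) => (x.2, x.1 / g)) ?_ ?_
  · rintro ⟨q, a⟩ hx
    rw [mem_coe, mem_sigma, mem_filter, mem_filter, mem_Ico] at hx
    obtain ⟨⟨⟨h1, h2⟩, h3⟩, h4, h5, h6⟩ := hx
    simp only at h1 h2 h3 h4 h5 h6
    have hgq : g ∣ q := by rw [← h3]; exact Nat.gcd_dvd_right d q
    have hg0 : 0 < g := by rw [← h3]; exact Nat.gcd_pos_of_pos_left q hd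
    have hmul : g * (q / g) = q := Nat.mul_div_cancel' hgq
    have hq0 : 0 < q := by omega
    rw [mem_coe, mem_filter, mem_product, mem_Icc, mem_Icc]
    refine ⟨⟨mem_Icc.1 h4, ?_, ?_⟩, ?_, ?_, ?_⟩
    · exact Nat.div_pos (Nat.le_of_dvd hq0 hgq) hg0
    · exact (Nat.div_le_self q g).trans h2.le
    · simp only
      rw [hmul]
      exact h1
    · simp only
      rw [hmul]
      exact h2
    · simp only
      have h7 := et_le_eb (d := d) hc hε hR h1
      rw [h3] at h6 h7
      exact h6.trans h7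
  · rintro ⟨q, a⟩ hx ⟨q2, a2⟩ hx2 h
    rw [mem_coe, mem_sigma, mem_filter] at hx hx2
    have hg1 : g ∣ q := by
      have := hx.1.2
      simp only at this
      rw [← this]
      exact Nat.gcd_dvd_right d q
    have hg2 : g ∣ q2 := by
      have := hx2.1.2
      simp only at this
      rw [← this]
      exact Nat.gcd_dvd_right d q2
    simp only [Prod.mk.injEq] at h
    have hq : q = q2 := by
      rw [← Nat.mul_div_cancel' hg1, h.2, Nat.mul_div_cancel' hg2]
    rw [hq, h.1]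

theorem mdREG : RegStmt := by
  intro ξ c ε s M d R hc hε hd hR
  have h1 : ∀ q ∈ Ico R (2 * R), Nat.gcd d q ∈ d.divisors := fun q _ =>
    Nat.mem_divisors.2 ⟨Nat.gcd_dvd_left d q, by omega⟩
  rw [← sum_fiberwise_of_maps_to h1]
  refine sum_le_sum fun g _ => ?_
  have h2 : ∑ q ∈ (Ico R (2 * R)).filter (fun q => Nat.gcd d q = g),
      (Nat.gcd d q : ℝ) * WW ξ c ε s M d q =
      (g : ℝ) * ((∑ q ∈ (Ico R (2 * R)).filter (fun q => Nat.gcd d q = g),
        WW ξ c ε s M d q : ℕ) : ℝ) := by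
    rw [Nat.cast_sum, mul_sum]
    refine sum_congr rfl fun q hq => ?_
    rw [(mem_filter.1 hq).2]
  rw [h2]
  refine mul_le_mul_of_nonneg_left ?_ (Nat.cast_nonneg g)
  exact_mod_cast fib ξ c ε s M d R g hc hε hd hR

end Pool.Agent.Helper13.MD
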